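import Pool.Agent.H572R4.Stmts

set_option autoImplicit false

namespace Pool.Agent.H572R4

open Pool.Agent.Helper446.Defs Pool.Agent.Helper446.CB Pool.Agent.Helper446.CB.Ix

namespace H477D1

theorem seg_xp_comp : Computable fun a : ℕ × ℕ => seg (xp a.1) a.2 := by
  have h1 : Primrec fun a : ℕ × ℕ => List.range a.2 := Primrec.list_range.comp Primrec.snd
  have h3 : PrimrecPred fun b : (ℕ × ℕ) × ℕ => b.2 = b.1.1 :=
    Primrec.eq.comp Primrec.snd (Primrec.fst.comp Primrec.fst)
  have h2 : Primrec₂ fun (a : ℕ × ℕ) (i : ℕ) => decide (i = a.1) := by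
    have := h3.decide
    exact this.of_eq fun b => by simp
  exact (Primrec.list_map h1 h2).to_comp

theorem re_notMem {S : Set (ℕ → Bool)} (hS : IsPi01 S) : REPred fun j : ℕ => xp j ∉ S := by
  obtain ⟨W, hW, rfl⟩ := isPi01_iff.1 hS
  have h1 : REPred fun a : ℕ × ℕ => seg (xp a.1) a.2 ∈ W :=
    Pool.Agent.Helper446.RE.comp (p := fun σ => σ ∈ W) hW seg_xp_comp
  have h2 : REPred fun j : ℕ => ∃ n : ℕ, seg (xp j) n ∈ W :=
    Pool.Agent.Helper446.RE.exN (p := fun j n => seg (xp j) n ∈ W) h1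
  refine h2.of_eq fun j => ?_
  simp only [Set.mem_ofPred_eq, not_forall, not_not]

end H477D1

theorem taskD1 : TaskD1 := by
  rintro B hB c ⟨d, h1, h2⟩
  have e1 : c.1 ∩ d.1 = {zz} := by
    have := congrArg Subtype.val h1
    rw [lb_inf, lb_bot] at this
    exact this.trans hB
  have e2 : c.1 ∪ d.1 = Set.univ := by
    have := congrArg Subtype.val h2
    rw [lb_sup, lb_top] at this
    exact this
  have hne : ∀ j, xp j ≠ zz := by
    intro j h
    have := congrFun h j
    simp [xp, zz] at this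
  have key : ∀ j, xp j ∈ c.1 ↔ xp j ∉ d.1 := by
    intro j
    constructor
    · intro hc hd
      have : xp j ∈ c.1 ∩ d.1 := ⟨hc, hd⟩
      rw [e1] at this
      exact hne j this
    · intro hd
      have : xp j ∈ c.1 ∪ d.1 := by rw [e2]; trivial
      exact this.resolve_right hd
  show ComputablePred fun j => xp j ∈ c.1
  refine Pool.Agent.Helper446.RE.cp_of_re ?_ (H477D1.re_notMem c.2.1)
  exact (H477D1.re_notMem d.2.1).of_eq fun j => (key j).symm

end Pool.Agent.H572R4
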